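import Pool.Agent.TH864.SX.Eleven

set_option autoImplicit false

/-!
# One more simple point: the dimension is at most one
-/

namespace Pool.Agent.X157.D

open MvPolynomial Finset Pool.Agent.TH176.Nag Pool.Agent.TH603.Sur Pool.Agent.H932R3

/-- The last point separately. -/
def eM (n : ℕ) (ij : Fin (n + 1) × Fin 2) : (Fin 2) ⊕ (Fin n × Fin 2) :=
  if h : (ij.1 : ℕ) < n then Sum.inr (⟨ij.1, h⟩, ij.2) else Sum.inl ij.2

/-- A nonzero polynomial in the coordinates of `n + 1` points does not vanish for some last point, if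
the first `n` points are general. -/
theorem last_point {n : ℕ} {F : MvPolynomial (Fin (n + 1) × Fin 2) ℚ} (hF : F ≠ 0) :
    ∃ Φ : MvPolynomial (Fin n × Fin 2) ℚ, Φ ≠ 0 ∧ ∀ {L : Type} [Field L] [CharZero L]
      (P : Fin n → Fin 2 → L),
      aeval (fun ij : Fin n × Fin 2 => P ij.1 ij.2) Φ ≠ 0 → ∃ q : Fin 2 → L,
        aeval (fun ij : Fin (n + 1) × Fin 2 => (Fin.snoc P q : Fin (n + 1) → Fin 2 → L) ij.1 ij.2) F ≠ 0 := by
  classical
  -- the last two variables
  obtain ⟨e, he⟩ : ∃ e, e = eM n := ⟨_, rfl⟩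
  have hinj : Function.Injective e := by
    rintro ⟨i, j⟩ ⟨i', j'⟩ h
    rw [he] at h
    unfold eM at h
    simp only at h
    split_ifs at h with h1 h2 h2
    · have h3 := Sum.inr.inj h
      rw [Prod.mk.injEq, Fin.mk.injEq] at h3
      exact Prod.ext (Fin.ext h3.1) h3.2
    · have h3 := Sum.inl.inj h
      refine Prod.ext (Fin.ext ?_) h3
      have := i.2
      have := i'.2
      simp only
      omega
  have hG : rename e F ≠ 0 := by
    intro h
    exact hF (rename_injective e hinj (by rw [h, map_zero]))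
  obtain ⟨G, hGdef⟩ : ∃ G, G = sumAlgEquiv ℚ (Fin 2) (Fin n × Fin 2) (rename e F) := ⟨_, rfl⟩
  have hG0 : G ≠ 0 := by
    rw [hGdef]
    exact fun h => hG ((sumAlgEquiv ℚ (Fin 2) (Fin n × Fin 2)).injective (by rw [h, map_zero]))
  obtain ⟨μ, hμ⟩ := MvPolynomial.ne_zero_iff.1 hG0
  refine ⟨coeff μ G, hμ, fun {L} _ _ P hP => ?_⟩
  obtain ⟨φ, hφ⟩ : ∃ φ : MvPolynomial (Fin n × Fin 2) ℚ →+* L,
      φ = (aeval (fun ij : Fin n × Fin 2 => P ij.1 ij.2)).toRingHom := ⟨_, rfl⟩
  have hH0 : map φ G ≠ 0 := by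
    rw [MvPolynomial.ne_zero_iff]
    refine ⟨μ, ?_⟩
    rw [coeff_map, hφ]
    exact hP
  obtain ⟨q, hq⟩ : ∃ q : Fin 2 → L, eval q (map φ G) ≠ 0 := by
    by_contra hcon
    push Not at hcon
    exact hH0 (MvPolynomial.funext fun q => by rw [hcon q, map_zero])
  refine ⟨q, ?_⟩
  have key : ∀ H : MvPolynomial (Fin 2 ⊕ (Fin n × Fin 2)) ℚ,
      eval q (map φ (sumAlgEquiv ℚ (Fin 2) (Fin n × Fin 2) H)) =
        aeval (Sum.elim q (fun ij : Fin n × Fin 2 => P ij.1 ij.2)) H := by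
    intro H
    have h1 : ((eval q).comp ((map φ).comp
        (sumAlgEquiv ℚ (Fin 2) (Fin n × Fin 2) : _ →+* _))) =
        (aeval (Sum.elim q (fun ij : Fin n × Fin 2 => P ij.1 ij.2)) :
          MvPolynomial (Fin 2 ⊕ (Fin n × Fin 2)) ℚ →ₐ[ℚ] L).toRingHom := by
      refine MvPolynomial.ringHom_ext ?_ ?_
      · intro r
        show eval q (map φ (sumAlgEquiv ℚ (Fin 2) (Fin n × Fin 2) (C r))) =
          aeval (Sum.elim q (fun ij : Fin n × Fin 2 => P ij.1 ij.2)) (C r)
        rw [sumAlgEquiv_C_inl, map_C, eval_C, hφ]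
        simp
      · intro i
        show eval q (map φ (sumAlgEquiv ℚ (Fin 2) (Fin n × Fin 2) (X i))) =
          aeval (Sum.elim q (fun ij : Fin n × Fin 2 => P ij.1 ij.2)) (X i)
        rcases i with i | i
        · rw [sumAlgEquiv_X_inl, map_X, eval_X, aeval_X]
          rfl
        · rw [sumAlgEquiv_X_inr, map_C, eval_C, hφ, aeval_X]
          show aeval _ (X i) = _
          rw [aeval_X]
          rfl
    exact DFunLike.congr_fun h1 H
  rw [hGdef, key, aeval_rename] at hq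
  have e1 : (Sum.elim q (fun ij : Fin n × Fin 2 => P ij.1 ij.2)) ∘ e =
      fun ij : Fin (n + 1) × Fin 2 => (Fin.snoc P q : Fin (n + 1) → Fin 2 → L) ij.1 ij.2 := by
    funext ij
    obtain ⟨i, j⟩ := ij
    rw [he]
    simp only [Function.comp, eM]
    by_cases h : (i : ℕ) < n
    · rw [dif_pos h]
      simp only [Sum.elim_inr, Fin.snoc, h, dif_pos, cast_eq]
      rfl
    · rw [dif_neg h]
      simp only [Sum.elim_inl, Fin.snoc, h, dif_neg, not_false_eq_true, cast_eq]
  rwa [e1] at hq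

end Pool.Agent.X157.D
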