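import Pool.Agent.TH469.SX.Fifteen

set_option autoImplicit false

/-!
# Eleven and fifteen points with one more simple point
-/

namespace Pool.Agent.X157.D

open Finset Pool.Agent.TH176.Nag Pool.Agent.TH603.Sur Pool.Agent.TH603.Cut Pool.Agent.TH641.NW
open Pool.Agent.TH864.SX (Fb Fa Slp Num)
open Pool.Agent.TH469.SX (Reg_finite cut_E)

variable {M q : ℕ} {K : ℝ} {d : ℕ}

theorem emp_apex {ι : Type} {w : ι → ℕ} (hE : Emp w (Fb q K d)) :
    Emp (Sum.elim w (fun _ : Fin 1 => 1)) (Fa q K d) := by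
  refine (Emp_insert (0, 0) (Emp_zero_iff.2 hE)).mono ?_
  rintro p (hp | ⟨-, hp⟩)
  · exact Or.inr hp
  · exact Or.inl hp

/-- eleven points -/
theorem emp11 {m d : ℕ} (hX : √(11 : ℝ) * (2 * m + 1) > 2 * d + 3) :
    Emp (Sum.elim (fun _ : Fin 11 => m) (fun _ : Fin 1 => 1)) (TZ d) := by
  have h := Pool.Agent.TH864.SX.num11
  refine Pool.Agent.TH864.SX.Emp_TZ9 h.sl Pool.Agent.TH864.SX.K11_lt (emp_apex ?_)
  refine Pool.Agent.TH864.SX.Emp_Fb h ?_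
  have e := h.rr_sqrt
  have hr := h.rr_sq
  have hr3 := h.rr3
  push_cast at e hr ⊢
  rw [e] at hX
  have h2 := mul_lt_mul_of_pos_left hX (show 0 < Pool.Agent.TH864.SX.rr Pool.Agent.TH864.SX.K11 by linarith)
  rw [← mul_assoc, hr] at h2
  exact h2

/-- the block without its apex -/
theorem Emp_blk1 {ι : Type} {w : ι → ℕ} (h : Slp M q K) (hE : Emp w (Fb q K d)) :
    Emp w {p : ℤ × ℤ | 1 ≤ p.1 ∧ 0 ≤ p.2 ∧ (K - M) * ((d : ℝ) / 3 - p.2) ≤ p.1 ∧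
      (p.1 : ℝ) ≤ K * ((d : ℝ) / 3 - p.2)} := by
  have hM : (0 : ℝ) < M := by exact_mod_cast h.hM
  have hK := h.K0
  have hq : (0 : ℝ) < q := by exact_mod_cast h.hq
  refine Emp_flat (S' := Fb q K d) 1 0 1 0 (by norm_num) ?_ hE
  rintro ⟨t, j⟩ T k ⟨g0, g1, g2, -⟩ ⟨-, -, -, g3⟩ hk
  simp only at g0 g1 g2 g3
  have e : ((1 * t + 0 * j, (k : ℤ)) : ℤ × ℤ) = (t, (k : ℤ)) := by simp
  simp only
  rw [e]
  have hkR : (k : ℝ) ≤ T := by exact_mod_cast hk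
  have hk0 : (0 : ℝ) ≤ k := Nat.cast_nonneg k
  have hj0 : (0 : ℝ) ≤ j := by exact_mod_cast g1
  push_cast at g0 g2 g3
  simp only [zero_mul, sub_zero, one_mul] at g0 g2 g3
  have g2' := h.low.1 g2
  have g3' := h.up.1 g3
  have hT : (T : ℝ) ≤ q * t := by linarith
  refine ⟨by simp only; omega, by simp, ?_, ?_⟩
  · simp only
    have h5 : (k : ℝ) ≤ q * t := by linarith
    have h6 : (k : ℤ) ≤ q * t := by exact_mod_cast h5
    rcases h6.lt_or_eq with h7 | h7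
    · exact h7
    · exfalso
      have h8 : (k : ℝ) = q * t := by exact_mod_cast h7
      refine h.ne (d := d) (t := t) (z := j) (by omega) ?_
      linarith
  · simp only
    have h5 : (t : ℝ) ≤ K * ((d : ℝ) / 3 - (j + T)) := g3
    have h6 : K * (k : ℝ) ≤ K * (j + T) := mul_le_mul_of_nonneg_left (by linarith) hK.le
    push_cast
    linarith

/-- three sectors, the apex in the first -/
theorem Emp_TZ3' {ι κ : Type} [Finite ι] [Finite κ] {w0 : κ → ℕ} {w : ι → ℕ} (h : Slp 3 q K)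
    (h6 : K < 6) (hE0 : Emp w0 (Fa q K d))
    (hE : Emp w (Fb q K d)) : Emp (Sum.elim (Sum.elim w0 w) w) (TZ d) := by
  have hK3 : (3 : ℝ) < K := by have := h.hMK; push_cast at this; exact this
  obtain ⟨τ, hτ⟩ : ∃ τ : ℝ, τ = K / 3 - 1 := ⟨_, rfl⟩
  have hτ0 : 0 < τ := by linarith
  have hτ1 : τ < 1 := by linarith
  have hK : K = 3 + 3 * τ := by linarith
  have hB := Pool.Agent.TH864.SX.Emp_blk h hE0
  have hC := Emp_blk1 h hE
  have hsec0 : Emp w0 {p : ℤ × ℤ | 0 ≤ p.2 ∧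
      (-1 - τ) * ((d : ℝ) - 3 * p.2) ≤ p.1 ∧ (p.1 : ℝ) ≤ (-τ) * ((d : ℝ) - 3 * p.2)} := by
    refine hB.comap (-1) 0 0 1 0 0 (by norm_num) ?_
    rintro ⟨x, y⟩ ⟨g1, g2, g3⟩
    simp only at g1 g2 g3
    refine ⟨by simp only; omega, ?_, ?_⟩
    · simp only
      rw [hK]
      push_cast
      linarith
    · simp only
      rw [hK]
      push_cast
      linarith
  have hsec : ∀ i : ℕ, Emp w {p : ℤ × ℤ | 0 < (d : ℝ) - 3 * p.2 ∧ 0 ≤ p.2 ∧
      ((i : ℝ) - 1 - τ) * ((d : ℝ) - 3 * p.2) ≤ p.1 ∧ (p.1 : ℝ) ≤ ((i : ℝ) - τ) * ((d : ℝ) - 3 * p.2)} := by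
    intro i
    refine hC.comap (-1) (-(3 * (i : ℤ))) 0 1 (i * d) 0 (by norm_num) ?_
    rintro ⟨x, y⟩ ⟨g0, g1, g2, g3⟩
    simp only at g0 g1 g2 g3
    have key : (0 : ℝ) < ((-1 * x + -(3 * (i : ℤ)) * y + i * d : ℤ) : ℝ) := by
      push_cast
      have : 0 < τ * ((d : ℝ) - 3 * y) := mul_pos hτ0 g0
      linarith
    have key' : (0 : ℤ) < -1 * x + -(3 * (i : ℤ)) * y + i * d := by exact_mod_cast key
    refine ⟨by simp only; omega, by simp only; omega, ?_, ?_⟩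
    · simp only
      rw [hK]
      push_cast
      linarith
    · simp only
      rw [hK]
      push_cast
      linarith
  refine keyE _ _ d τ hτ0 hτ1 ?_
  have hfin := Reg_finite (α := -((d : ℝ) * (1 + τ))) (β := d * (2 - τ))
    (μ := 3 * (1 + τ)) (ν := 3 * (2 - τ)) (by linarith)
  set R := Reg (-((d : ℝ) * (1 + τ))) (d * (2 - τ)) (3 * (1 + τ)) (3 * (2 - τ)) with hR
  have hpos : ∀ p ∈ R, (0 : ℝ) ≤ (d : ℝ) - 3 * p.2 := by
    rintro ⟨x, y⟩ ⟨g1, g2, g3⟩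
    simp only at g1 g2 g3 ⊢
    nlinarith
  have hcov : R ⊆ ({p | p ∈ R ∧ (p.1 : ℝ) ≤ -τ * ((d : ℝ) - 3 * p.2)} ∪
      {p | p ∈ R ∧ -τ * ((d : ℝ) - 3 * p.2) < p.1 ∧ (p.1 : ℝ) ≤ (1 - τ) * ((d : ℝ) - 3 * p.2)}) ∪
      {p | p ∈ R ∧ (1 - τ) * ((d : ℝ) - 3 * p.2) < p.1} := by
    intro p hp
    rcases le_or_gt (p.1 : ℝ) (-τ * ((d : ℝ) - 3 * p.2)) with h1 | h1
    · exact Or.inl (Or.inl ⟨hp, h1⟩)
    · rcases le_or_gt (p.1 : ℝ) ((1 - τ) * ((d : ℝ) - 3 * p.2)) with h2 | h2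
      · exact Or.inl (Or.inr ⟨hp, h1, h2⟩)
      · exact Or.inr ⟨hp, h2⟩
  refine Emp.mono ?_ hcov
  refine cut_E (ρ := -3 * (1 - τ)) (hfin.subset ?_) (hfin.subset fun p hp => hp.1) ?_
    (cut_E (ρ := 3 * τ) (hfin.subset fun p hp => hp.1) (hfin.subset fun p hp => hp.1) ?_ ?_ ?_) ?_
  · rintro p (hp | hp)
    · exact hp.1
    · exact hp.1
  · rintro p (⟨hp, h1⟩ | ⟨hp, h1, h2⟩) p' ⟨hp', h3⟩
    · have := hpos p hp
      nlinarith
    · linarith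
  · rintro p ⟨hp, h1⟩ p' ⟨hp', h2, h3⟩
    linarith
  · refine hsec0.mono ?_
    rintro ⟨x, y⟩ ⟨⟨g1, g2, g3⟩, h1⟩
    simp only at g1 g2 g3 h1
    refine ⟨g1, ?_, ?_⟩
    · simp only; linarith
    · simp only; linarith
  · refine (hsec 1).mono ?_
    rintro ⟨x, y⟩ ⟨⟨g1, g2, g3⟩, h1, h2⟩
    simp only at g1 g2 g3 h1 h2
    refine ⟨?_, g1, ?_, ?_⟩
    · simp only; nlinarith
    · simp only; push_cast; linarith
    · simp only; push_cast; linarith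
  · refine (hsec 2).mono ?_
    rintro ⟨x, y⟩ ⟨⟨g1, g2, g3⟩, h1⟩
    simp only at g1 g2 g3 h1
    refine ⟨?_, g1, ?_, ?_⟩
    · simp only; nlinarith
    · simp only; push_cast; linarith
    · simp only; push_cast; linarith

/-- The points of the three sectors. -/
def g15 : ((Fin 5 ⊕ Fin 1) ⊕ Fin 5) ⊕ Fin 5 → Fin 15 ⊕ Fin 1
  | Sum.inl (Sum.inl (Sum.inl i)) => Sum.inl ⟨i, by omega⟩
  | Sum.inl (Sum.inl (Sum.inr i)) => Sum.inr i
  | Sum.inl (Sum.inr i) => Sum.inl ⟨5 + i, by omega⟩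
  | Sum.inr i => Sum.inl ⟨10 + i, by omega⟩

/-- fifteen points -/
theorem emp15 {m d : ℕ} (hX : √(15 : ℝ) * (2 * m + 1) > 2 * d + 3) :
    Emp (Sum.elim (fun _ : Fin 15 => m) (fun _ : Fin 1 => 1)) (TZ d) := by
  have h := Pool.Agent.TH469.SX.slp15
  have hK0 := h.K0
  have hK : ((2 : ℕ) : ℝ) * (Pool.Agent.TH469.SX.K15 * (Pool.Agent.TH469.SX.K15 - (3 : ℕ))) =
    (3 : ℕ) := h.eq
  have hpq : 1 * 2 = 2 := rfl
  have hcard : Fintype.card (Fin 5) = 3 + 2 * 1 := by simp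
  have hs := Pool.Agent.TH469.SX.three_lt
  have hss := Pool.Agent.TH469.SX.sq15
  have hK1 : Pool.Agent.TH469.SX.K15 * √15 = 3 * (Pool.Agent.TH469.SX.K15 + 1) := by
    unfold Pool.Agent.TH469.SX.K15
    linarith
  obtain ⟨A, hA⟩ : ∃ A : ℝ, A = Pool.Agent.TH469.SX.K15 * d / 3 := ⟨_, rfl⟩
  have h1 : (2 : ℕ) * A < (2 : ℕ) * (m : ℝ) * (Pool.Agent.TH469.SX.K15 + (1 : ℕ)) + 1 := by
    have h2 := mul_lt_mul_of_pos_left hX hK0
    have h3 : Pool.Agent.TH469.SX.K15 * (√15 * (2 * (m : ℝ) + 1)) =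
        3 * (Pool.Agent.TH469.SX.K15 + 1) * (2 * m + 1) := by rw [← mul_assoc, hK1]
    push_cast
    rw [hA]
    linarith
  have hE : Emp (fun _ : Fin 5 => m) (Fb 2 Pool.Agent.TH469.SX.K15 d) := by
    rw [Pool.Agent.TH469.SX.Fb_eq, ← hA]
    exact Pool.Agent.TH469.SX.Emp_blk hpq hK0 hK hcard h1
  have hT := Emp_TZ3' h Pool.Agent.TH469.SX.K15_lt (emp_apex hE) hE
  refine Emp_emb (g := g15) ?_ ?_ hT
  · rintro (((i | i) | i) | i) (((j | j) | j) | j) hij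
    all_goals simp only [g15, Sum.inl.injEq, Sum.inr.injEq, Fin.mk.injEq, reduceCtorEq] at hij
    · exact congrArg _ (congrArg _ (congrArg _ (Fin.ext hij)))
    · have := i.2
      omega
    · have := i.2
      omega
    · rw [hij]
    · have := j.2
      omega
    · exact congrArg _ (congrArg _ (Fin.ext (by omega)))
    · have := i.2
      omega
    · have := j.2
      omega
    · have := j.2
      omega
    · exact congrArg _ (Fin.ext (by omega))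
  · rintro (((i | i) | i) | i) <;> exact le_rfl

end Pool.Agent.X157.D
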