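import Pool.Agent.X157.D.One
import Pool.Agent.X157.D.Eleven
import Pool.Agent.X157.W.GcdNum

set_option autoImplicit false

/-!
# Eleven and fifteen points: the dimension is the expected one, or one instead of zero
-/

namespace Pool.Agent.X157.D

open MvPolynomial Finset Pool.Agent.TH176.Nag Pool.Agent.TH603.Sur Pool.Agent.H932R3
  Pool.Agent.TH167 Pool.Agent.TH167.SHDefs Pool.Agent.W609.CR

theorem emp_eq {n : ℕ} (hn : n = 11 ∨ n = 15) {m d : ℕ}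
    (hX : √(n : ℝ) * (2 * m + 1) > 2 * d + 3) :
    Emp (Sum.elim (fun _ : Fin n => m) (fun _ : Fin 1 => 1)) (TZ d) := by
  rcases hn with rfl | rfl
  · exact emp11 (by push_cast at hX; exact hX)
  · exact emp15 (by push_cast at hX; exact hX)

theorem exp_eq {n : ℕ} (hn : n = 11 ∨ n = 15) (m : ℕ) :
    ∃ F : MvPolynomial (Fin n × Fin 2) ℚ, F ≠ 0 ∧ ∀ {L : Type} [Field L] [CharZero L]
      (P : Fin n → Fin 2 → L), MvPolynomial.aeval (fun ij : Fin n × Fin 2 => P ij.1 ij.2) F ≠ 0 →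
      ∀ d : ℕ, (¬ 3 ∣ d ∨ (d : ℝ) < √(n : ℝ) * m ∨ √(n : ℝ) * (2 * m + 1) ≤ 2 * d + 3) →
        ExpDim L (fun _ => m) P d := by
  rcases hn with rfl | rfl
  · obtain ⟨F, hF, hF'⟩ := Pool.Agent.TH864.SX.uniform11 m
    exact ⟨F, hF, fun P hP d hd => hF' P hP d (by push_cast at hd; exact hd)⟩
  · obtain ⟨F, hF, hF'⟩ := Pool.Agent.TH469.SX.fifteen m
    exact ⟨F, hF, fun P hP d hd => hF' P hP d (by push_cast at hd; exact hd)⟩

/-- the number of the conditions below the threshold -/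
theorem count_le {n : ℕ} (hn : n = 11 ∨ n = 15) {m d : ℕ}
    (hX : √(n : ℝ) * (2 * m + 1) > 2 * d + 3) :
    (d + 2).choose 2 ≤ n * (m + 1).choose 2 + 1 := by
  have h1 := X157.W.eight_chi (n := n) d m
  have hn0 : (0 : ℝ) ≤ n := Nat.cast_nonneg n
  have hss : √(n : ℝ) * √(n : ℝ) = n := Real.mul_self_sqrt hn0
  have h2 : (2 * (d : ℝ) + 3) ^ 2 < (√(n : ℝ) * (2 * m + 1)) ^ 2 :=
    pow_lt_pow_left₀ hX (by positivity) (by norm_num)
  have e1 : (√(n : ℝ) * (2 * m + 1)) ^ 2 = n * (2 * (m : ℝ) + 1) ^ 2 := by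
    rw [mul_pow, sq (√(n : ℝ)), hss]
  rw [e1] at h2
  have h3 : 8 * ((SH.chi d (fun _ : Fin n => m) : ℤ) : ℝ) < n - 1 := by linarith
  have h4 : SH.chi d (fun _ : Fin n => m) ≤ 1 := by
    by_contra hcon
    push Not at hcon
    have h5 : (2 : ℤ) ≤ SH.chi d (fun _ : Fin n => m) := by omega
    have h6 : (2 : ℝ) ≤ ((SH.chi d (fun _ : Fin n => m) : ℤ) : ℝ) := by exact_mod_cast h5
    rcases hn with rfl | rfl
    · push_cast at h3
      linarith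
    · push_cast at h3
      linarith
  have hc : ∑ _j : Fin n, (m + 1).choose 2 = n * (m + 1).choose 2 := by
    rw [Finset.sum_const, Finset.card_univ, Fintype.card_fin, smul_eq_mul]
  have h7 : SH.chi d (fun _ : Fin n => m) = ((d + 2).choose 2 : ℤ) - (n * (m + 1).choose 2 : ℕ) := by
    unfold SH.chi
    rw [← hc]
    push_cast
    rfl
  rw [h7] at h4
  omega

/-- **Main theorem.** -/
theorem main {n : ℕ} (hn : n = 11 ∨ n = 15) {m : ℕ} (hm : 1 ≤ m) :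
    ∃ F : MvPolynomial (Fin n × Fin 2) ℚ, F ≠ 0 ∧
      ∀ (P : Fin n → Fin 2 → ℂ), MvPolynomial.aeval (fun ij : Fin n × Fin 2 => P ij.1 ij.2) F ≠ 0 →
      (∀ d : ℕ, d ≠ TH641.NW.dcrit n m → ExpDim ℂ (fun _ => m) P d) ∧
      ∀ d : ℕ, ExpDim ℂ (fun _ => m) P d ∨
        (3 ∣ d ∧ √(n : ℝ) * m ≤ d ∧ 2 * (d : ℝ) + 3 < √(n : ℝ) * (2 * m + 1) ∧
          (d + 2).choose 2 ≤ n * (m + 1).choose 2 ∧
          Module.finrank ℂ ↥(sys P d (fun _ => m)) = 1) := by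
  classical
  have hn10 : 10 ≤ n := by omega
  obtain ⟨F1, hF1, hF1'⟩ := exp_eq hn m
  obtain ⟨F2, hF2, hF2'⟩ := TH641.NW.expDim_all_but_one (L := ℂ) hn10 hm
  have hex : ∀ d : ℕ, ∃ Φ : MvPolynomial (Fin n × Fin 2) ℚ, Φ ≠ 0 ∧
      ∀ (P : Fin n → Fin 2 → ℂ), aeval (fun ij : Fin n × Fin 2 => P ij.1 ij.2) Φ ≠ 0 →
        2 * (d : ℝ) + 3 < √(n : ℝ) * (2 * m + 1) →
        Module.finrank ℂ ↥(sys P d (fun _ => m)) ≤ 1 := by
    intro d
    by_cases hX : 2 * (d : ℝ) + 3 < √(n : ℝ) * (2 * m + 1)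
    · obtain ⟨Φ, hΦ, hΦ'⟩ := at_most_one (emp_eq hn hX) (count_le hn hX)
      exact ⟨Φ, hΦ, fun P hP _ => hΦ' P hP⟩
    · exact ⟨1, one_ne_zero, fun P _ h => absurd h hX⟩
  choose Φ hΦ hΦ' using hex
  obtain ⟨N, hN⟩ : ∃ N : ℕ, ∀ d : ℕ, 2 * (d : ℝ) + 3 < √(n : ℝ) * (2 * m + 1) → d < N := by
    obtain ⟨N, hN⟩ := exists_nat_gt (√(n : ℝ) * (2 * m + 1))
    refine ⟨N, fun d hd => ?_⟩
    have h0 : (0 : ℝ) ≤ d := Nat.cast_nonneg d
    have h1 : (d : ℝ) < N := by linarith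
    exact_mod_cast h1
  refine ⟨F1 * F2 * ∏ d ∈ Finset.range N, Φ d,
    mul_ne_zero (mul_ne_zero hF1 hF2) (Finset.prod_ne_zero_iff.2 fun d _ => hΦ d), fun P hP => ?_⟩
  rw [map_mul, map_mul, map_prod] at hP
  have hP12 := left_ne_zero_of_mul hP
  have hP3 := Finset.prod_ne_zero_iff.1 (right_ne_zero_of_mul hP)
  refine ⟨fun d hd => hF2' P (right_ne_zero_of_mul hP12) d hd, fun d => ?_⟩
  by_cases hd : ¬ 3 ∣ d ∨ (d : ℝ) < √(n : ℝ) * m ∨ √(n : ℝ) * (2 * m + 1) ≤ 2 * d + 3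
  · exact Or.inl (hF1' P (left_ne_zero_of_mul hP12) d hd)
  push Not at hd
  obtain ⟨d1, d2, d3⟩ := hd
  have h1 := hΦ' d P (hP3 d (Finset.mem_range.2 (hN d d3))) d3
  have hc : ∑ _j : Fin n, (m + 1).choose 2 = n * (m + 1).choose 2 := by
    rw [Finset.sum_const, Finset.card_univ, Fintype.card_fin, smul_eq_mul]
  have h7 : SH.chi d (fun _ : Fin n => m) = ((d + 2).choose 2 : ℤ) - (n * (m + 1).choose 2 : ℕ) := by
    unfold SH.chi
    rw [← hc]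
    push_cast
    rfl
  have h8 := SH.chi_le_dim P d (fun _ : Fin n => m)
  rw [← SH.sys_eq, h7] at h8
  have h9 := count_le hn d3
  have h10 : ExpDim ℂ (fun _ => m) P d ↔ Module.finrank ℂ ↥(sys P d (fun _ => m)) =
      (d + 2).choose 2 - n * (m + 1).choose 2 := by
    unfold ExpDim
    rw [hc]
    exact Iff.rfl
  by_cases hE : Module.finrank ℂ ↥(sys P d (fun _ => m)) =
      (d + 2).choose 2 - n * (m + 1).choose 2
  · exact Or.inl (h10.2 hE)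
  · right
    refine ⟨d1, d2, d3, ?_, ?_⟩
    · omega
    · omega

end Pool.Agent.X157.D
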