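import Pool.Agent.X157.D.Core
import Pool.Agent.TH167.SH.Conv

set_option autoImplicit false

/-!
# One more simple point: the dimension is at most one
-/

namespace Pool.Agent.X157.D

open MvPolynomial Finset Pool.Agent.TH176.Nag Pool.Agent.TH603.Sur Pool.Agent.H932R3
  Pool.Agent.TH167 Pool.Agent.TH167.SHDefs Pool.Agent.W609.CR

theorem snoc_emp {n m d : ℕ}
    (h : Emp (Sum.elim (fun _ : Fin n => m) (fun _ : Fin 1 => 1)) (TZ d)) :
    Emp (Fin.snoc (fun _ : Fin n => m) 1 : Fin (n + 1) → ℕ) (TZ d) := by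
  refine Emp_emb (g := finSumFinEquiv) finSumFinEquiv.injective ?_ h
  rintro (i | i)
  · have e : (finSumFinEquiv (Sum.inl i : Fin n ⊕ Fin 1)) = Fin.castSucc i := rfl
    rw [e, Fin.snoc_castSucc]
    exact le_rfl
  · have hi : i = 0 := Subsingleton.elim _ _
    subst hi
    have e : (finSumFinEquiv (Sum.inr 0 : Fin n ⊕ Fin 1)) = Fin.last n := rfl
    rw [e, Fin.snoc_last]
    exact le_rfl

/-- **At most one.** -/
theorem at_most_one {n m d : ℕ}
    (h : Emp (Sum.elim (fun _ : Fin n => m) (fun _ : Fin 1 => 1)) (TZ d))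
    (hc : (d + 2).choose 2 ≤ n * (m + 1).choose 2 + 1) :
    ∃ Φ : MvPolynomial (Fin n × Fin 2) ℚ, Φ ≠ 0 ∧ ∀ {L : Type} [Field L] [CharZero L]
      (P : Fin n → Fin 2 → L), aeval (fun ij : Fin n × Fin 2 => P ij.1 ij.2) Φ ≠ 0 →
        Module.finrank L ↥(sys P d (fun _ => m)) ≤ 1 := by
  obtain ⟨F, hF, hF'⟩ := full_open (snoc_emp h)
  obtain ⟨Φ, hΦ, hΦ'⟩ := last_point hF
  refine ⟨Φ, hΦ, fun {L} _ _ P hP => ?_⟩
  obtain ⟨q, hq⟩ := hΦ' P hP
  have h1 := hF' _ hq d le_rfl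
  unfold ExpDim at h1
  have h2 : ∑ i : Fin (n + 1), ((Fin.snoc (fun _ : Fin n => m) 1 : Fin (n + 1) → ℕ) i + 1).choose 2 =
      n * (m + 1).choose 2 + 1 := by
    rw [Fin.sum_univ_castSucc]
    simp only [Fin.snoc_castSucc, Fin.snoc_last, Finset.sum_const, Finset.card_univ,
      Fintype.card_fin, smul_eq_mul]
    rfl
  rw [h2, Nat.sub_eq_zero_of_le hc] at h1
  have hfin : Module.Finite L ↥(sys P d (fun _ => m)) := by
    rw [SH.sys_eq]
    exact vs_fin _ _ _
  by_contra hcon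
  push Not at hcon
  obtain ⟨ψ, hψ⟩ : ∃ ψ : ↥(sys P d (fun _ => m)) →ₗ[L] L, ∀ f, ψ f = eval (aff q) f.1 :=
    ⟨((MvPolynomial.aeval (aff q) : MvPolynomial (Fin 3) L →ₐ[L] L).toLinearMap).comp
      (Submodule.subtype _), fun f => by
        simp [MvPolynomial.aeval_eq_eval]⟩
  have hker : LinearMap.ker ψ ≠ ⊥ := by
    apply LinearMap.ker_ne_bot_of_finrank_lt
    rw [Module.finrank_self]
    exact hcon
  obtain ⟨f, hf, hf0⟩ := (Submodule.ne_bot_iff _).1 hker
  rw [LinearMap.mem_ker, hψ] at hf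
  have hfm := f.2
  have hfh : f.1.IsHomogeneous d := hfm.1
  have hmem : f.1 ∈ (MvPolynomial.homogeneousSubmodule (Fin 3) L d ⊓
      Submodule.restrictScalars L (⨅ i : Fin (n + 1), (Ideal.span
        ({X 0 - C ((Fin.snoc P q : Fin (n + 1) → Fin 2 → L) i 0) * X 2,
          X 1 - C ((Fin.snoc P q : Fin (n + 1) → Fin 2 → L) i 1) * X 2} :
          Set (MvPolynomial (Fin 3) L))) ^
        ((Fin.snoc (fun _ : Fin n => m) 1 : Fin (n + 1) → ℕ) i))) := by
    refine ⟨hfh, ?_⟩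
    rw [SetLike.mem_coe, Submodule.restrictScalars_mem, Submodule.mem_iInf]
    intro i
    refine Fin.lastCases ?_ (fun i => ?_) i
    · rw [Fin.snoc_last, Fin.snoc_last]
      have h3 := (t_link L q 1 f.1 d hfh).1 (by
        unfold Van
        rw [pow_one, RingHom.mem_ker]
        exact hf)
      exact h3
    · rw [Fin.snoc_castSucc, Fin.snoc_castSucc]
      have h4 := hfm.2
      rw [SetLike.mem_coe, Submodule.restrictScalars_mem, Submodule.mem_iInf] at h4
      exact h4 i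
  have hfin2 : Module.Finite L ↥(MvPolynomial.homogeneousSubmodule (Fin 3) L d ⊓
      Submodule.restrictScalars L (⨅ i : Fin (n + 1), (Ideal.span
        ({X 0 - C ((Fin.snoc P q : Fin (n + 1) → Fin 2 → L) i 0) * X 2,
          X 1 - C ((Fin.snoc P q : Fin (n + 1) → Fin 2 → L) i 1) * X 2} :
          Set (MvPolynomial (Fin 3) L))) ^
        ((Fin.snoc (fun _ : Fin n => m) 1 : Fin (n + 1) → ℕ) i))) := by
    have h5 : sys (Fin.snoc P q : Fin (n + 1) → Fin 2 → L) d
        (Fin.snoc (fun _ : Fin n => m) 1 : Fin (n + 1) → ℕ) = _ := SH.sys_eq _ _ _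
    have h6 := vs_fin (fun j => aff ((Fin.snoc P q : Fin (n + 1) → Fin 2 → L) j))
      (Fin.snoc (fun _ : Fin n => m) 1 : Fin (n + 1) → ℕ) d
    rw [← h5] at h6
    exact h6
  have h7 := Submodule.finrank_eq_zero.1 h1
  rw [h7] at hmem
  exact hf0 (Subtype.ext ((Submodule.mem_bot L).1 hmem))

end Pool.Agent.X157.D
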